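import Pool.Agent.U918.LP.Golds

/-!
# Almost all even numbers as sums of an `a`-prime and a prime, for ALL `a` at once, with arbitrary weights

`p x` is the `x`-th prime, and `p (p (⋯ p x))`, `a + 1` applications, is the `x`-th `a`-prime `ip a x`. For every `a ≥ 0` let
`w_a` be ANY bounded real weight on the integers `x ≥ 1`, for example the indicator of an arbitrary set. For all but a
share `log ^ (-U) X` of the vectors `(n₁, …, n_r)` of integers `1 ≤ n_i ≤ X / 2`, one has for ALL `a ≥ 0` simultaneously: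
the sum of `w_a x` over the `x` with `ip a x ≤ y` for which all the numbers `2 n_i - ip a x` are prime is the sum of
`w_a x ∏ 1 / (V z log (2 n_i - ip a x))` over those `x` for which all the numbers `2 n_i - ip a x` are free of primes
`≤ z`, up to an error `X / log ^ D X`; here `z` is a power of `log X`, `V z = ∏_{l ≤ z} (1 - 1/l)`, and this holds
simultaneously for all `y ≤ X` and all residue classes of `ip a x` to all moduli up to `log ^ K X`. For `r = 1`, `w = 1`,
`y = X` the first sum is the number of representations of `2 n` as the sum of an `a`-prime and a prime, the pairs `(a, 0)`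
of the question.
-/

set_option autoImplicit false

open Finset

namespace Pool.Agent.Results.MP_778b46_nt.AlmostAllEvenNumbers

/-- the product of `1 - 1/l` over the primes `l ≤ z` -/
noncomputable def V (z : ℕ) : ℝ := ∏ l ∈ (Icc 1 z).filter Nat.Prime, (1 - 1 / (l : ℝ))

/-- the `x`-th prime -/
noncomputable def p (x : ℕ) : ℕ := Nat.nth Nat.Prime (x - 1)

/-- the `x`-th `a`-prime: `a + 1` applications of `p` -/
noncomputable def ip (a x : ℕ) : ℕ := p^[a + 1] x

open Classical in
/-- the sum of `w x` over the `x ≥ 1` with `ip a x ≤ y`, `ip a x ≡ b mod q`, for which all the numbers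
`2 n i - ip a x` are prime (here `x ≤ ip a x`) -/
noncomputable def primeSum {r : ℕ} (a : ℕ) (w : ℕ → ℝ) (n : Fin r → ℕ) (q b y : ℕ) : ℝ :=
  ∑ x ∈ (Icc 1 y).filter (fun x => ip a x ≤ y ∧ ip a x ≡ b [MOD q] ∧ ∀ i, (2 * n i - ip a x).Prime), w x

open Classical in
/-- the sum of `w x / ∏ (V z · log (2 n i - ip a x))` over the `x ≥ 1` with `ip a x ≤ y`, `ip a x ≡ b mod q`, for which no
prime `l ≤ z` divides any of the numbers `2 n i - ip a x` (so `ip a x < 2 n i`) -/
noncomputable def modelSum {r : ℕ} (a z : ℕ) (w : ℕ → ℝ) (n : Fin r → ℕ) (q b y : ℕ) : ℝ :=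
  ∑ x ∈ (Icc 1 y).filter (fun x => ip a x ≤ y ∧ ip a x ≡ b [MOD q] ∧
    ∀ i, ∀ l : ℕ, l.Prime → l ≤ z → ¬ l ∣ 2 * n i - ip a x),
    w x * ∏ i, (V z * Real.log ((2 * n i - ip a x : ℕ) : ℝ))⁻¹

theorem p_lt (u v : ℕ) (hu : 1 ≤ u) (huv : u < v) : p u < p v := Pool.Agent.U918.LP.pr_lt u v hu huv

theorem p_gt (u : ℕ) (hu : 1 ≤ u) : u < p u := Pool.Agent.U918.LP.pr_ge u hu

theorem p_prime (u : ℕ) : (p u).Prime := Nat.prime_nth_prime _

theorem p_two (u : ℕ) (hu : 1 ≤ u) : 2 * u ≤ p u + 1 := by
  induction u with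
  | zero => omega
  | succ v ih =>
      rcases Nat.eq_zero_or_pos v with h | h
      · subst h
        have := (p_prime 1).two_le
        simp only [zero_add]
        omega
      · have h1 := ih h
        have h2 := p_lt v (v + 1) h (Nat.lt_succ_self v)
        have h3 := p_gt v h
        rcases Nat.eq_or_lt_of_le h with h4 | h4
        · have h5 : v = 1 := h4.symm
          subst h5
          omega
        · have h6 : p v % 2 = 1 := ((p_prime v).eq_two_or_odd).resolve_left (by omega)
          have h7 : p (v + 1) % 2 = 1 := ((p_prime (v + 1)).eq_two_or_odd).resolve_left (by omega)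
          omega

theorem ip_succ (a x : ℕ) : ip (a + 1) x = p (ip a x) := by
  unfold ip
  rw [Function.iterate_succ_apply']

theorem ip_pos (a x : ℕ) (hx : 1 ≤ x) : x < ip a x := by
  induction a with
  | zero => exact p_gt x hx
  | succ a ih =>
      rw [ip_succ]
      exact lt_trans ih (p_gt _ (by omega))

theorem ip_lt (a u v : ℕ) (hu : 1 ≤ u) (huv : u < v) : ip a u < ip a v := by
  induction a with
  | zero => exact p_lt u v hu huv
  | succ a ih =>
      rw [ip_succ, ip_succ]
      exact p_lt _ _ (by have := ip_pos a u hu; omega) ih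

theorem ip_ge (a x : ℕ) (hx : 1 ≤ x) : (a + 1) * x ≤ ip a x := by
  induction a with
  | zero =>
      have := ip_pos 0 x hx
      omega
  | succ a ih =>
      rw [ip_succ]
      have h1 := ip_pos a x hx
      have h2 := p_two (ip a x) (by omega)
      have h3 : (a + 1 + 1) * x = (a + 1) * x + x := by ring
      omega

open Classical in
/-- **The theorem.** For all `r`, `U`, `D`, `K` there is `B₀` such that for every `E`, every large `X`, every integer `z`
with `log ^ B₀ X ≤ z ≤ log ^ E X` and EVERY family of weights `w a` with `|w a x| ≤ 1`: for all but at most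
`X ^ r / log ^ U X` of the vectors `n` of integers `1 ≤ n i ≤ X / 2`, one has for ALL `a ≥ 0`, all `y ≤ X`, all moduli
`1 ≤ q ≤ log ^ K X` and all classes `b` that `primeSum a (w a) n q b y` and `modelSum a z (w a) n q b y` differ by at most
`X / log ^ D X`. -/
theorem result (r U D K : ℕ) :
    ∃ B₀ : ℕ, ∀ E : ℕ, ∃ X₀ : ℕ, ∀ X : ℕ, X₀ ≤ X → ∀ z : ℕ, Real.log X ^ B₀ ≤ z → (z : ℝ) ≤ Real.log X ^ E →
    ∀ w : ℕ → ℕ → ℝ, (∀ a x, |w a x| ≤ 1) →
    (((Fintype.piFinset (fun _ : Fin r => Icc 1 (X / 2))).filter (fun n =>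
      ∃ a : ℕ, ∃ y ≤ X, ∃ q b : ℕ, 1 ≤ q ∧ (q : ℝ) ≤ Real.log X ^ K ∧
        (X : ℝ) / Real.log X ^ D < |primeSum a (w a) n q b y - modelSum a z (w a) n q b y|)).card : ℝ) ≤
      (X : ℝ) ^ r / Real.log X ^ U := by
  obtain ⟨B₀, h0⟩ := Pool.Agent.U918.LP.all_golds r U D K
  refine ⟨B₀, fun E => ?_⟩
  obtain ⟨x0, hx0⟩ := h0 E
  refine ⟨x0, fun X hX z hz1 hz2 w hw => ?_⟩
  have key := hx0 X hX z hz1 hz2 (fun c x => ip (c - 1) x)
    (fun c _ u v hu huv => ip_lt (c - 1) u v hu huv)
    (fun c x hc hx => by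
      have h1 := ip_pos (c - 1) x hx
      have h2 := ip_ge (c - 1) x hx
      have h3 : c - 1 + 1 = c := by omega
      rw [h3] at h2
      exact ⟨h1.le, h2⟩) (fun c => w (c - 1)) (fun c => hw (c - 1))
  refine le_trans ?_ key
  rw [Nat.cast_le]
  apply card_le_card
  intro n hn
  rw [mem_filter] at hn ⊢
  obtain ⟨h1, a, y, hy, q, b, hq1, hq2, hlt⟩ := hn
  exact ⟨h1, a + 1, by omega, y, hy, q, b, hq1, hq2, hlt⟩

end Pool.Agent.Results.MP_778b46_nt.AlmostAllEvenNumbers
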