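import Pool.Agent.U847.XF
import Pool.Agent.U847.XW
import Pool.Agent.N625.PT.X8

/-!
# Sums of an `a`-prime and a prime: multiples of the integers whose digits form correctly nested words

The even numbers `N = h M (c + κ v)`, where `M` is the product of the primes `≤ y` and `v` runs over the integers whose `k`
digits form a correctly nested word: the bracket languages (for example the Dyck words on several types of brackets with
arbitrary neutral symbols between them). These sets are not given by a finite automaton, they are very sparse, and their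
digits depend on each other at all distances.

From Mathlib: `Nat.nth Nat.Prime`: the sequence of the primes; `primorial y`: the product of the primes `≤ y`;
`Finset.Icc 1 x`: the integers from `1` to `x`.

Method: the exponential sum over the nested words loses a constant factor at every digit where the frequency is not extremal
(starting files, `Pool.Agent.N625.DY`). New here: this decay is exponential in the number of these digits for all the
fractions with a denominator free of small primes (`Pool.Agent.U847.XC`), it gives the sieve with error terms smaller than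
all powers of `k` (`Pool.Agent.U847.XD`), the second moment of the number of the `a`-primes which survive the sieve
(`Pool.Agent.U847.XE`) and the number of the representations (`Pool.Agent.U847.XF`). The proofs of these three steps are those
of the starting files `Pool.Agent.N625.PT.X2` - `X7` (integers with exchangeable blocks of digits), with the class of
distributions replaced.
-/

set_option autoImplicit false

namespace Pool.Agent.Results.MP_778b46_nt.NestedWordMultiples

open Finset

/-- `P` is a set of pairs of an opening digit and a closing digit which match each other, `E` is a set of neutral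
digits; the digits are smaller than `b`, no digit plays two of the three roles, and there is at least one pair.
(An opening digit can match several closing digits, and conversely.) -/
structure Alphabet (b : ℕ) (P : Finset (ℕ × ℕ)) (E : Finset ℕ) : Prop where
  lt : ∀ p ∈ P, p.1 < b ∧ p.2 < b
  ne : ∀ p ∈ P, ∀ p' ∈ P, p.1 ≠ p'.2
  neutral : ∀ a ∈ E, a < b ∧ ∀ p ∈ P, a ≠ p.1 ∧ a ≠ p.2
  nonempty : P.Nonempty

/-- The correctly nested words: the empty word; a neutral digit followed by a correctly nested word; and `o u c w`,
where `u` and `w` are correctly nested words and the opening digit `o` matches the closing digit `c`. -/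
inductive Balanced (P : Finset (ℕ × ℕ)) (E : Finset ℕ) : List ℕ → Prop
  | nil : Balanced P E []
  | neutral (a : ℕ) (w : List ℕ) : a ∈ E → Balanced P E w → Balanced P E (a :: w)
  | pair (o c : ℕ) (u w : List ℕ) : (o, c) ∈ P → Balanced P E u → Balanced P E w → Balanced P E (o :: (u ++ c :: w))

open Classical in
/-- The integers `v < b ^ k` whose `k` digits in base `b`, from the most significant to the least significant one (the
digit number `i`, `0 ≤ i < k`, from the left is `v / b ^ (k - 1 - i) % b`), form a correctly nested word. -/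
noncomputable def brackets (b : ℕ) (P : Finset (ℕ × ℕ)) (E : Finset ℕ) (k : ℕ) : Finset ℕ :=
  (range (b ^ k)).filter fun v => Balanced P E ((List.range k).map fun i => v / b ^ (k - 1 - i) % b)

/-- The `i`-th `a`-prime, `i ≥ 1`: the function `i ↦` the `i`-th prime, iterated `a + 1` times. -/
noncomputable def ip (a i : ℕ) : ℕ := Nat.iterate (fun k : ℕ => Nat.nth Nat.Prime (k - 1)) (a + 1) i

open Classical in
/-- The `a`-primes `≤ x`. -/
noncomputable def IPs (a x : ℕ) : Finset ℕ := (Icc 1 x).filter (fun u => ∃ i : ℕ, 0 < i ∧ ip a i = u)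

/-- the product of `1 - 1/q` over the primes `q ≤ y` -/
noncomputable def V (y : ℕ) : ℝ := ∏ q ∈ (Icc 1 y).filter Nat.Prime, (1 - 1 / (q : ℝ))

/-- the multiple of the product of the primes `≤ y` given by the integers `h` and `c + κ v` -/
def Nv (y h : ℕ) (c κ : ℤ) (v : ℕ) : ℤ := ((primorial y * h : ℕ) : ℤ) * (c + κ * v)

/-- the `u ∈ S` such that `n - u` is prime -/
def Rep (S : Finset ℕ) (n : ℤ) : Finset ℕ := S.filter (fun u : ℕ => (n - u).toNat.Prime)

lemma bal_iff (P : Finset (ℕ × ℕ)) (E : Finset ℕ) (w : List ℕ) : Balanced P E w ↔ Pool.Agent.N625.DY.Balanced P E w := by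
  constructor
  · intro h
    induction h with
    | nil => exact .nil
    | neutral a w h1 _ ih => exact .neutral a w h1 ih
    | pair o c u w h1 _ _ ih1 ih2 => exact .pair o c u w h1 ih1 ih2
  · intro h
    induction h with
    | nil => exact .nil
    | neutral a w h1 _ ih => exact .neutral a w h1 ih
    | pair o c u w h1 _ _ ih1 ih2 => exact .pair o c u w h1 ih1 ih2

lemma brackets_eq (b : ℕ) (P : Finset (ℕ × ℕ)) (E : Finset ℕ) (k : ℕ) :
    brackets b P E k = Pool.Agent.N625.DY.brackets b P E k := by
  classical
  unfold brackets Pool.Agent.N625.DY.brackets Pool.Agent.N625.DY.word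
  ext v
  rw [mem_filter, mem_filter, bal_iff]

open Classical in
/-- Let `a ≥ 0`, let `P`, `E` be an alphabet of matching brackets and neutral digits in base `b`, and let `κ ≠ 0`, `B`, `J`,
`C` and `0 < ε ≤ 1` be fixed. Then there is a `K₀` such that for all `K₁` and all large `k`: let `y` be
between `K₀ log k` and `K₁ log k`, let `M` be the product of the primes `≤ y`, let `c` be an integer with `|c| ≤ B b ^ k`,
`1 ≤ h ≤ k ^ J`, and let `x` be an integer with `b ^ k ≤ x k ^ C` and `x ≤ b ^ k k ^ C`. Then all the integers `v` whose `k`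
digits form a correctly nested word, with the exception of a proportion of at most `ε`, have the following property: if
`N = h M (c + κ v) > x`, then `N` has at least `(1 - ε) #U / (V y log b ^ k)` representations `N = u + q`, where `u` is in
the set `U` of all the `a`-primes `≤ x` and `q` is a prime. (It is known that there are at least `c₀ x / log ^ (a + 1) x`
`a`-primes `≤ x`, so that the number of the representations tends to infinity.) -/
theorem result (a b : ℕ) (P : Finset (ℕ × ℕ)) (E : Finset ℕ) (hA : Alphabet b P E) (κ : ℤ) (hκ : κ ≠ 0) (B J C : ℕ)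
    (ε : ℝ) (hε : 0 < ε) (hε1 : ε ≤ 1) : ∃ K₀ : ℕ, ∀ K₁ : ℕ, ∃ k₀ : ℕ, ∀ k : ℕ, k₀ ≤ k →
    ∀ y : ℕ, K₀ * Real.log k ≤ y → y ≤ K₁ * Real.log k →
    ∀ c : ℤ, |c| ≤ B * (b : ℤ) ^ k → ∀ h : ℕ, 1 ≤ h → h ≤ k ^ J → ∀ x : ℕ, b ^ k ≤ x * k ^ C → x ≤ b ^ k * k ^ C →
      (((brackets b P E k).filter fun v : ℕ => (x : ℤ) < Nv y h c κ v ∧ ((Rep (IPs a x) (Nv y h c κ v)).card : ℝ) <
          (1 - ε) * ((IPs a x).card / (V y * (k * Real.log b)))).card : ℝ) ≤ ε * (brackets b P E k).card := by
  have hA' : Pool.Agent.N625.DY.Alphabet b P E := ⟨hA.lt, hA.ne, hA.neutral, hA.nonempty⟩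
  have hb : 2 ≤ b := Pool.Agent.N625.DY.two_le hA'
  obtain ⟨K₀, h0⟩ := Pool.Agent.U847.XP.dense_sum b _ hb _ (Pool.Agent.U847.XP.br_scls hA') κ hκ B J (2 * (a + 1) + 1) C
    ε hε hε1
  refine ⟨K₀, fun K₁ => ?_⟩
  obtain ⟨k₀, h0⟩ := h0 K₁
  obtain ⟨k₁, h1⟩ := Pool.Agent.N625.PT.ip_dense b C a hb
  refine ⟨max k₀ k₁, fun k hk y hy1 hy2 c hc h hh1 hhJ x hx1 hx2 => ?_⟩
  simp only [brackets_eq]
  have key := Pool.Agent.U847.XW.br_num hA' (fun v : ℕ => (x : ℤ) < Nv y h c κ v ∧ ((Rep (IPs a x) (Nv y h c κ v)).card : ℝ) <
          (1 - ε) * ((IPs a x).card / (V y * (k * Real.log b)))) (k := k) (ε := ε) (fun p hp => by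
    refine le_trans (le_of_eq ?_) (h0 k (by omega) p hp y hy1 hy2 c hc h hh1 hhJ x hx1 hx2 (IPs a x)
      (Pool.Agent.N625.PT.IPs_sub a x) (Pool.Agent.N625.PT.IPs_prime a x) (h1 k (by omega) x hx1 hx2))
    apply sum_congr rfl
    intro v _
    congr!)
  refine le_trans (le_of_eq ?_) key
  congr!

end Pool.Agent.Results.MP_778b46_nt.NestedWordMultiples
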