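import Mathlib
import Pool.Agent.U462.Sh.ZSum

set_option autoImplicit false

/-!
# Sums of two distinct elements: prescribed exceptions
-/

namespace Pool.Agent.Results.MP_778b46_nt.PrescribedExceptions

open Finset Filter
open scoped Topology
open Pool.Agent.U462.Sh.Law

/-- the number of the representations `M = a + b`, `a < b`, with `a` and `b` in `S` -/
noncomputable def reps (S : Set ℕ) (M : ℕ) : ℕ := {a : ℕ | a < M - a ∧ a ∈ S ∧ M - a ∈ S}.ncard

/-- **Prescribed exceptions.** For every sequence `N 0, N 1, ...` with `N i ≥ 2 ^ 16 ^ i` and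
`N (i + 1) ≥ 2 N i` there is a set `S` of rough numbers `≥ 2` such that no `N i` is the sum of two elements
of `S`, while the number of representations as a sum of two distinct elements of `S` tends to infinity for
all other even numbers `M`, and for which the uniform Hardy–Littlewood law holds for all systems of linear
forms and all intervals `[u, v)` for which at most `√(v - u)` of the `n` in `[u, v)` give two values of forms
of the system with sum some `N i`. -/
theorem result : ∀ N : ℕ → ℕ, (∀ i, 2 ^ 16 ^ i ≤ N i) → (∀ i, 2 * N i ≤ N (i + 1)) →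
    ∃ S : Set ℕ, (∀ m ∈ S, 2 ≤ m ∧ Rough m) ∧ (∀ i, ∀ a ∈ S, ∀ b ∈ S, a + b ≠ N i) ∧
    (∀ K : ℕ, ∃ M₀ : ℕ, ∀ M : ℕ, M₀ ≤ M → Even M → (∀ i, M ≠ N i) → K ≤ reps S M) ∧
    LawOn S (fun L u v => (({n : ℕ | u ≤ n ∧ n < v ∧ ∃ i, ∃ l ∈ L, ∃ l' ∈ L,
      value l n + value l' n = N i}.ncard : ℕ) : ℝ) ≤ Real.sqrt ((v : ℝ) - u)) := by
  classical
  intro N hN1 hN2
  obtain ⟨S, h1, h2, hlaw⟩ := Pool.Agent.U462.Sh.sumOn N hN1 hN2
  refine ⟨S, h1, h2, ?_, hlaw⟩
  intro K
  obtain ⟨X0, hX0⟩ := Pool.Agent.U462.Sh.manyU hlaw 2 1 one_pos (1 / 2) (by norm_num) K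
  refine ⟨X0 + 2 ^ 20, ?_⟩
  intro M hM hMe hMN
  obtain ⟨h, hh⟩ := hMe
  have hh2 : M = 2 * h := by omega
  have hbig : 2 ^ 20 ≤ M := by omega
  have hMR : ((2 : ℝ)) ^ 20 ≤ M := by exact_mod_cast hbig
  have hhR : (h : ℝ) = (M : ℝ) / 2 := by
    rw [hh2]; push_cast; ring
  have hval1 : ∀ m : ℕ, value (1, 0) m = m := by
    intro m
    simp [value]
  have hval2 : ∀ m : ℕ, m ≤ M → value (-1, (M : ℤ)) m = M - m := by
    intro m hm
    unfold value
    have : (-1 : ℤ) * (m : ℤ) + (M : ℤ) = ((M - m : ℕ) : ℤ) := by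
      rw [Nat.cast_sub hm]; ring
    rw [this, Int.toNat_natCast]
  have hMpos : (0 : ℤ) + (M : ℤ) ≠ 0 := by
    rw [zero_add]
    exact_mod_cast (by omega : M ≠ 0)
  have hfin : {a : ℕ | a < M - a ∧ a ∈ S ∧ M - a ∈ S}.Finite :=
    (Set.finite_Iio M).subset (fun a ha => by
      have := ha.1
      simp only [Set.mem_Iio]
      omega)
  refine (hX0 M (by omega) {((1 : ℤ), 0), (-1, (M : ℤ))}
    (Pool.Agent.U462.Sh.gold_sys _ _ hMpos) (Pool.Agent.U462.Sh.gold_card _ _) ?_ ?_
    2 h (by omega) (by omega) ?_ ?_ ?_).trans ?_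
  · intro l hl
    simp only [mem_insert, mem_singleton] at hl
    have : (1 : ℤ) ≤ M := by exact_mod_cast (by omega : 1 ≤ M)
    rcases hl with rfl | rfl
    · refine ⟨?_, ?_⟩
      · simp only [abs_one]; exact this
      · simp only [abs_zero]; linarith
    · refine ⟨?_, ?_⟩
      · simp only [abs_neg, abs_one]; exact this
      · simp only [Nat.abs_cast]; exact le_rfl
  · intro t
    exact Pool.Agent.U462.Sh.ser_ge _ (Pool.Agent.U462.Sh.gold_sys _ _ hMpos)
      (Pool.Agent.U462.Sh.gold_card _ _) (Pool.Agent.U462.Sh.gold_two _ _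
        ⟨(h : ℤ), by rw [zero_add, hh2]; push_cast; ring⟩) t
  · rw [← Real.sqrt_eq_rpow]
    apply Real.sqrt_le_iff.2
    rw [hhR]
    push_cast
    constructor
    · linarith
    · nlinarith
  · intro m hm1 hm2 l hl
    simp only [mem_insert, mem_singleton] at hl
    have hm1' : (2 : ℤ) ≤ m := by exact_mod_cast hm1
    have hm2' : (m : ℤ) + 2 ≤ M := by exact_mod_cast (by omega : m + 2 ≤ M)
    rcases hl with rfl | rfl
    · simp only; linarith
    · simp only; linarith
  · -- the exceptions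
    have hpow : ∀ i, 2 ^ i ≤ N i := fun i =>
      (Nat.pow_le_pow_right (by norm_num) (Nat.lt_pow_self (by norm_num)).le).trans (hN1 i)
    have hsub : {n : ℕ | 2 ≤ n ∧ n < h ∧ ∃ i, ∃ l ∈ ({((1 : ℤ), 0), (-1, (M : ℤ))} : Finset (ℤ × ℤ)),
        ∃ l' ∈ ({((1 : ℤ), 0), (-1, (M : ℤ))} : Finset (ℤ × ℤ)), value l n + value l' n = N i} ⊆
        (((range (Nat.log 2 (2 * M) + 1)).image fun i => N i / 2) ∪
          ((range (Nat.log 2 (2 * M) + 1)).image fun i => M - N i / 2) : Finset ℕ) := by
      rintro n ⟨hn1, hn2, i, l, hl, l', hl', hsum⟩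
      have hle : ∀ l ∈ ({((1 : ℤ), 0), (-1, (M : ℤ))} : Finset (ℤ × ℤ)), value l n ≤ M := by
        intro l hl
        simp only [mem_insert, mem_singleton] at hl
        rcases hl with rfl | rfl
        · rw [hval1]; omega
        · rw [hval2 n (by omega)]; omega
      have hi : i ∈ range (Nat.log 2 (2 * M) + 1) := by
        rw [mem_range]
        apply Nat.lt_succ_of_le
        apply Nat.le_log_of_pow_le (by norm_num)
        have := hle l hl
        have := hle l' hl'
        exact (hpow i).trans (by omega)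
      rw [mem_coe, mem_union]
      simp only [mem_insert, mem_singleton] at hl hl'
      rcases hl with rfl | rfl <;> rcases hl' with rfl | rfl
      · left
        rw [hval1] at hsum
        exact mem_image.2 ⟨i, hi, by omega⟩
      · exfalso
        rw [hval1, hval2 n (by omega)] at hsum
        exact hMN i (by omega)
      · exfalso
        rw [hval1, hval2 n (by omega)] at hsum
        exact hMN i (by omega)
      · right
        rw [hval2 n (by omega)] at hsum
        exact mem_image.2 ⟨i, hi, by omega⟩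
    have hcard := Set.ncard_le_ncard hsub (Finset.finite_toSet _)
    rw [Set.ncard_coe_finset] at hcard
    have hc2 := hcard.trans ((card_union_le _ _).trans (Nat.add_le_add card_image_le card_image_le))
    rw [card_range] at hc2
    obtain ⟨t, ht⟩ : ∃ t, t = Nat.log 2 (2 * M) := ⟨_, rfl⟩
    rw [← ht] at hc2
    have ht1 : 2 ^ t ≤ 2 * M := by rw [ht]; exact Nat.pow_log_le_self 2 (by omega)
    have ht2 : 21 ≤ t := by
      rw [ht]
      apply Nat.le_log_of_pow_le (by norm_num)
      have : 2 ^ 21 = 2 * 2 ^ 20 := by norm_num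
      omega
    have hgrow : ∀ t : ℕ, 21 ≤ t → 4 * (2 * t + 2) ^ 2 + 8 ≤ 2 ^ t := by
      intro t ht
      induction t, ht using Nat.le_induction with
      | base => norm_num
      | succ t ht ih =>
        have e : 2 ^ (t + 1) = 2 * 2 ^ t := by ring
        rw [e]
        nlinarith
    have hg := hgrow t ht2
    have h5 : (2 * t + 2) ^ 2 ≤ h - 2 := by omega
    refine le_trans (Nat.cast_le.2 hc2) ?_
    apply Real.le_sqrt_of_sq_le
    have h6 : (((2 * t + 2) ^ 2 : ℕ) : ℝ) ≤ ((h - 2 : ℕ) : ℝ) := Nat.cast_le.2 h5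
    rw [Nat.cast_sub (by omega)] at h6
    push_cast at h6 ⊢
    refine le_trans (le_of_eq ?_) h6
    ring
  · unfold count reps
    apply Set.ncard_le_ncard _ hfin
    rintro m ⟨hm1, hm2, hall⟩
    have h4 := hall _ (mem_insert_self _ _)
    have h5 := hall _ (mem_insert_of_mem (mem_singleton_self _))
    rw [hval1 m] at h4
    rw [hval2 m (by omega)] at h5
    exact ⟨by omega, h4, h5⟩

end Pool.Agent.Results.MP_778b46_nt.PrescribedExceptions
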