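import Pool.Agent.U710.XP.T
import Pool.Agent.N625.PT.X8

/-!
# Representations of type `(a, 0)` of multiples of the integers near the values of functions which grow faster than any power

The even numbers `N = h M u`, where `M` is the product of the primes `≤ z`, `z` of the order of magnitude of the logarithm
of `log N`, and `u` runs over all the integers near the values `⌊exp (α (log m) ^ γ + β)⌋`, `1 < γ < 3 / 2`.

Method (`Pool.Agent.U710.LE`, new): exponential sums over the values with Vinogradov's mean value theorem for a degree which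
tends to infinity. They have power savings in `log` at ALL frequencies which are not close to integers, and quasi-exponential
savings at the rational numbers with small denominators. The passage to the numbers of representations is from
`Pool.Agent.U847.X*` (helper847) and the starting files `Pool.Agent.N625.PT.X*`, with a weaker condition at the rational
numbers (`Pool.Agent.U710.XP`).
-/

set_option autoImplicit false

open Finset Filter

namespace Pool.Agent.Results.MP_778b46_nt.SubexponentialMultiples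

/-- The sequence: `S α β γ m = ⌊exp (α (log m) ^ γ + β)⌋`. -/
noncomputable def S (α β γ : ℝ) (m : ℕ) : ℕ := ⌊Real.exp (α * Real.log m ^ γ + β)⌋₊

/-- The `i`-th `a`-prime: the `(a + 1)`-fold iterate of `k ↦ k`-th prime, applied to `i`. -/
noncomputable def ip (a i : ℕ) : ℕ := Nat.iterate (fun k : ℕ => Nat.nth Nat.Prime (k - 1)) (a + 1) i

open Classical in
/-- The `a`-primes `≤ x`. -/
noncomputable def IPs (a x : ℕ) : Finset ℕ := (Icc 1 x).filter (fun u => ∃ i : ℕ, 0 < i ∧ ip a i = u)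

/-- the product of `1 - 1/q` over the primes `q ≤ z` -/
noncomputable def V (z : ℕ) : ℝ := ∏ q ∈ (Icc 1 z).filter Nat.Prime, (1 - 1 / (q : ℝ))

/-- the `s ∈ P` such that `n - s` is prime -/
def Rep (P : Finset ℕ) (n : ℤ) : Finset ℕ := P.filter (fun s : ℕ => (n - s).toNat.Prime)

open Classical in
/-- Let `S(m) = ⌊exp (α (log m) ^ γ + β)⌋`, `α > 0`, `1 < γ < 3/2` (it grows faster than any power of `m`, and has only `N ^ o(1)`
members up to `N`). Let `κ ≠ 0`, `A`, `B`, `J`, `C`, `R` be integers, `0 < ε ≤ 1`. There is `K₀` such that for all `K₁` the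
following holds for all large `y`; let `L = log S(y)`. Let `y / (log y) ^ A ≤ w ≤ y / log y`, let `z` be between `K₀ log L` and
`K₁ log L`, `M` the product of the primes `≤ z`, `|c| ≤ B S(y)`, `1 ≤ h ≤ L ^ J`, `S(y) ≤ X L ^ C`, `X ≤ S(y) L ^ C`, and let
`U` be the set of all the `a`-primes `≤ X`. All but at most `ε w` of the integers `m` in `(y - w, y]` are such that for ALL the
integers `u` with `|u - (c + κ S(m))| ≤ R` the number `N = h M u`, if it is larger than `X`, has at least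
`(1 - ε) #U / (V(z) L)` representations `N = s + q`, `s ∈ U` and `q` a prime. -/
theorem result (a : ℕ) (α β γ : ℝ) (hα : 0 < α) (hγ1 : 1 < γ) (hγ2 : γ < 3 / 2) (κ : ℤ) (hκ : κ ≠ 0) (A B J C R : ℕ) (ε : ℝ)
    (hε : 0 < ε) (hε1 : ε ≤ 1) : ∃ K₀ : ℕ, ∀ K₁ : ℕ, ∀ᶠ y : ℕ in atTop, ∀ w : ℕ, (y : ℝ) / Real.log y ^ A ≤ w →
    (w : ℝ) ≤ y / Real.log y → ∀ z : ℕ, K₀ * Real.log (Real.log (S α β γ y)) ≤ z → z ≤ K₁ * Real.log (Real.log (S α β γ y)) →
    ∀ c : ℤ, |c| ≤ B * (S α β γ y : ℕ) → ∀ h : ℕ, 1 ≤ h → (h : ℝ) ≤ Real.log (S α β γ y) ^ J →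
    ∀ X : ℕ, (S α β γ y : ℝ) ≤ X * Real.log (S α β γ y) ^ C → (X : ℝ) ≤ S α β γ y * Real.log (S α β γ y) ^ C →
    (((Ioc (y - w) y).filter (fun m : ℕ => ¬ ∀ u : ℤ, |u - (c + κ * (S α β γ m : ℕ))| ≤ R →
      (X : ℤ) < ((primorial z * h : ℕ) : ℤ) * u →
      (1 - ε) * ((IPs a X).card / (V z * Real.log (S α β γ y))) ≤
        ((Rep (IPs a X) (((primorial z * h : ℕ) : ℤ) * u)).card : ℝ))).card : ℝ) ≤ ε * w := by
  obtain ⟨K₀, hK₀⟩ := Pool.Agent.U710.XP.sum_near α β γ hα hγ1 hγ2 κ hκ A B J C R (2 * (a + 1) + 1) ε hε hε1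
  refine ⟨K₀, fun K₁ => ?_⟩
  obtain ⟨y₀, hy₀⟩ := hK₀ K₁
  obtain ⟨k₁, h1⟩ := Pool.Agent.N625.PT.ip_dense 2 (C + 1) a le_rfl
  obtain ⟨N₀, hN₀⟩ := Pool.Agent.U710.XP.scales J C ε hε
  obtain ⟨ζ, σ, hζ, hζ1, hσ, hdist⟩ := Pool.Agent.U710.XP.ef_dist α β γ hα hγ1 hγ2 A
  obtain ⟨y₁, hy₁⟩ := hdist (k₁ + N₀ + 2)
  filter_upwards [eventually_ge_atTop (y₀ + y₁)] with y hy w hw1 hw2 z hz1 hz2 c hc h hh1 hhJ X hX1 hX2
  obtain ⟨c1, c2, c3, c4, c5, c6, c7⟩ := hy₁ y w (by omega) hw1 hw2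
  obtain ⟨N, hN⟩ : ∃ N, N = S α β γ y := ⟨_, rfl⟩
  have hN' : ⌊Pool.Agent.U710.LE.ef α β γ y⌋₊ = N := by rw [hN]; rfl
  rw [hN'] at c3 c4
  have hNN : N₀ ≤ N := by
    have h1 : Pool.Agent.U710.LE.dg N ≤ N := by
      unfold Pool.Agent.U710.LE.dg
      have := Nat.log_lt_self 2 (show N ≠ 0 by omega)
      omega
    omega
  obtain ⟨s1, s2, s3, s4, s5, s6, s7, s8, s9⟩ := hN₀ N hNN
  have h2 := hy₀ y w (by omega) hw1 hw2 z hz1 hz2 c hc h hh1 hhJ X hX1 hX2 (IPs a X)
    (Pool.Agent.N625.PT.IPs_sub a X) (Pool.Agent.N625.PT.IPs_prime a X) (by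
      rw [hN']
      exact h1 (Pool.Agent.U710.LE.dg N) (by omega) X (s8 X (by rw [hN]; exact hX1)) (s9 X (by rw [hN]; exact hX2)))
  refine le_trans (le_of_eq ?_) h2
  congr!

end Pool.Agent.Results.MP_778b46_nt.SubexponentialMultiples
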